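import Pool.Agent.helper80.SG.Spec2

/-!
# Project sq (MP_b5a345_ag): module VS5
-/

set_option autoImplicit false
set_option linter.unusedSectionVars false

namespace Pool.Agent.SG

open MvPolynomial Module Pool.Agent.SV

theorem VS5 (hVIS : VIS_stmt) : VS5_stmt := by
  intro ι κ _ _ _ _ c T d hd o f hf
  have hf' : (f : MvPolynomial ι ℂ) ≠ 0 := fun h => hf (Subtype.ext h)
  obtain ⟨w, hw⟩ : ∃ w : ι → ℂ, eval w (f : MvPolynomial ι ℂ) ≠ 0 := by
    by_contra h
    refine hf' (MvPolynomial.funext fun x => ?_)
    rw [map_zero]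
    by_contra h1
    exact h ⟨x, h1⟩
  have hcut : ∀ x : ι → ℂ, cut Finset.univ x = x := fun x => by
    funext i
    simp [cut]
  have hpt : ∀ p : ι → ℂ, ptc c T 0 (p, 0) = p := by
    intro p
    funext j
    simp [ptc]
  -- a value at the first point
  have hval : used5 o (some ((0 : Fin 3), (none : Option ι))) = true → ∃ P, Phi5 c T d o P f ≠ 0 := by
    intro hu
    refine ⟨(w, 0), fun h => hw ?_⟩
    have h1 := congrFun h (some (0, none))
    rw [Phi5_apply, if_pos hu] at h1
    simpa [roleF, hpt] using h1
  -- a gradient at the first point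
  have hgr : (∀ i : ι, used5 o (some ((0 : Fin 3), some i)) = true) → ∃ P, Phi5 c T d o P f ≠ 0 := by
    intro hu
    obtain ⟨p, hp⟩ := hVIS c Finset.univ Finset.univ d hd f f.2 ⟨w, by rw [hcut]; exact hw⟩
    rw [hcut] at hp
    obtain ⟨i, hi⟩ := Function.ne_iff.1 hp
    rw [gradL_apply, if_pos (Finset.mem_univ i)] at hi
    refine ⟨(p, 0), fun h => hi ?_⟩
    have h1 := congrFun h (some (0, some i))
    rw [Phi5_apply, if_pos (hu i)] at h1
    simpa [roleF, hpt] using h1
  match o with
  | none => exact hgr (fun i => by simp [used5])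
  | some ρ =>
    fin_cases ρ
    · exact hval (by simp [used5])
    · exact hval (by simp [used5])
    · exact hval (by simp [used5])
    · exact hgr (fun i => by simp [used5])

end Pool.Agent.SG
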